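import Pool.Agent.M3.FPInfo
import Pool.Agent.M3.FPMart
import Pool.Agent.M3.S3Vec

/-!
# GM69.AntiHot: anti-hot never happens (Lemma AH of note 3878)

`ah F G Z w = P(F|Z) P(G|Z) / P(F,G|Z)` at the point `w`, in masses `m(F,Z) m(G,Z) / (m(F,G,Z) m Z)`.
Field `A_t = (F_t, G_t, Z_t)`; `Z_t` is refined in an arbitrary way (any function of the whole sample), `F_t`, `G_t`
are refined over `Z_{t+1}` (births and private refinements; `F_t` a function of `(F_{t+1}, Z_{t+1})`).
* `ah_refine`: a refinement of `F` (or of `G`) at fixed `Z` does not increase `ah` in conditional mean;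
* `ah_pub`: a refinement `Z'` of `Z` increases it by at most `ahs`, with
  `E ahs <= (Hc F Z - Hc F Z') + (Hc G Z - Hc G Z')` (`E_ahs_le`);
* `anti_hot`: `c P(exists t <= n, c <= ah_t) <= 1 + H(F) + H(G)`, `H(F)` = the entropy of `F` ever created.
No size of a class or of a label occurs.
-/

set_option autoImplicit false
set_option linter.unusedSectionVars false

namespace Pool.Agent.M3

open Finset Pool.Agent.PWZ

variable {Om : Type*} [Fintype Om]

noncomputable section

/-- mass of the value `k` of `X` given `Z` -/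
def FP.cm (P : FP Om) {κ ζ : Type*} (X : Om → κ) (Z : Om → ζ) (k : κ) (w : Om) : ℝ :=
  P.ce Z (fun v => ind (X v = k)) w

/-- total variation (without the half) between the laws of `X` given `Z'` and given `Z` -/
def FP.tvd (P : FP Om) {κ ζ ζ' : Type*} (X : Om → κ) (Z : Om → ζ) (Z' : Om → ζ') (w : Om) : ℝ := by
  classical
  exact ∑ k ∈ Finset.univ.image X, |P.cm X Z' k w - P.cm X Z k w|

/-- the anti-hot ratio `P(F|Z) P(G|Z) / P(F,G|Z)` at the point `w` -/
def FP.ah (P : FP Om) {κ ι ζ : Type*} (F : Om → κ) (G : Om → ι) (Z : Om → ζ) (w : Om) : ℝ :=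
  P.m (fun v => (F v, Z v)) w * P.m (fun v => (G v, Z v)) w / (P.m (fun v => (F v, G v, Z v)) w * P.m Z w)

/-- what a public step adds to the ratio -/
def FP.ahs (P : FP Om) {κ ι ζ ζ' : Type*} (F : Om → κ) (G : Om → ι) (Z : Om → ζ) (Z' : Om → ζ') (w : Om) : ℝ :=
  P.E (fun v => ind (Z v = Z w) *
    (|P.cm F Z' (F w) v - P.cm F Z (F w) v| * |P.cm G Z' (G w) v - P.cm G Z (G w) v|)) /
    P.m (fun v => (F v, G v, Z v)) w

end

namespace FP

variable (P : FP Om) {κ ι ζ κ' ι' ζ' : Type*}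

/-! ## the law of a map given another one -/

theorem cm_nonneg (X : Om → κ) (Z : Om → ζ) (k : κ) (w : Om) : 0 ≤ P.cm X Z k w :=
  P.ce_nonneg (fun _ _ => ind_nonneg _) w

theorem cm_fac (X : Om → κ) (Z : Om → ζ) (k : κ) : Fac Z (P.cm X Z k) := P.ce_fac _ _

theorem cm_self (X : Om → κ) (Z : Om → ζ) (w : Om) :
    P.cm X Z (X w) w = P.m (fun v => (X v, Z v)) w / P.m Z w := by
  unfold cm ce m
  congr 1
  refine P.E_congr (fun v _ => ?_)
  show ind (Z v = Z w) * ind (X v = X w) = ind ((X v, Z v) = (X w, Z w))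
  rw [← ind_and]
  congr 1
  simp only [Prod.mk.injEq, eq_iff_iff]
  tauto

theorem m_eq_cm (X : Om → κ) (Z : Om → ζ) {k : κ} {w : Om} (hk : X w = k) (hw : P.p w ≠ 0) :
    P.m (fun v => (X v, Z v)) w = P.cm X Z k w * P.m Z w := by
  subst hk
  rw [cm_self]
  have := (P.m_pos Z hw).ne'
  field_simp

theorem cm_sum [DecidableEq κ] (X : Om → κ) (Z : Om → ζ) {w : Om} (hw : P.p w ≠ 0) :
    ∑ k ∈ Finset.univ.image X, P.cm X Z k w = 1 := by
  unfold cm
  rw [← P.ce_sum, ← P.ce_const Z 1 hw]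
  refine P.ce_congr (fun v _ => ?_) w
  rw [Finset.sum_eq_single (X v) (fun k _ hk => ind_not (fun h => hk h.symm))
    (fun h => absurd (Finset.mem_image_of_mem X (Finset.mem_univ v)) h), ind_of rfl]

theorem cm_ac (X : Om → κ) {Z : Om → ζ} {Z' : Om → ζ'} (hZ : Fac Z' Z) (k : κ) {w : Om} (hw : P.p w ≠ 0)
    (h : P.cm X Z k w = 0) : P.cm X Z' k w = 0 := by
  have h1 : ∀ v, P.p v ≠ 0 → Z v = Z w → ind (X v = k) = 0 := fun _ hv hz =>
    P.eq_zero_of_ce (fun _ _ => ind_nonneg _) hw h hv hz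
  unfold cm ce
  have h2 : P.E (fun v => ind (Z' v = Z' w) * ind (X v = k)) = P.E (fun _ => 0) := by
    refine P.E_congr (fun v hv => ?_)
    by_cases hz : Z' v = Z' w
    · rw [h1 v hv (hZ v w hz), mul_zero]
    · rw [ind_not hz, zero_mul]
  rw [h2, E_const, zero_div]

theorem tvd_nonneg (X : Om → κ) (Z : Om → ζ) (Z' : Om → ζ') (w : Om) : 0 ≤ P.tvd X Z Z' w := by
  unfold tvd
  exact Finset.sum_nonneg (fun _ _ => abs_nonneg _)

/-- Pinsker at one point -/
theorem tvd_sq [DecidableEq κ] (X : Om → κ) {Z : Om → ζ} {Z' : Om → ζ'} (hZ : Fac Z' Z) {w : Om} (hw : P.p w ≠ 0) :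
    P.tvd X Z Z' w ^ 2 ≤
      2 * ∑ k ∈ Finset.univ.image X, P.cm X Z' k w * Real.log (P.cm X Z' k w / P.cm X Z k w) := by
  classical
  have h := pinsker_vec (Finset.univ.image X) (p := fun k => P.cm X Z' k w) (q := fun k => P.cm X Z k w)
    (d := fun k => if P.cm X Z k w ≤ P.cm X Z' k w then 1 else -1)
    (fun k _ => P.cm_nonneg _ _ _ _) (fun k _ => P.cm_nonneg _ _ _ _) (P.cm_sum X Z' hw) (P.cm_sum X Z hw)
    (fun k _ hk => P.cm_ac X hZ k hw hk) (fun k _ => by
      by_cases hk : P.cm X Z k w ≤ P.cm X Z' k w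
      · left; simp only [hk, if_true]
      · right; simp only [hk, if_false])
  refine le_trans (le_of_eq ?_) h
  congr 1
  unfold tvd
  rw [← Finset.sum_sub_distrib]
  have e : (Finset.univ.image X) = @Finset.image Om κ (fun a b => Classical.propDecidable (a = b)) X Finset.univ := by
    ext k; simp
  rw [← e]
  refine Finset.sum_congr rfl (fun k _ => ?_)
  by_cases hk : P.cm X Z k w ≤ P.cm X Z' k w
  · simp only [hk, if_true]
    rw [abs_of_nonneg (by linarith)]; ring
  · simp only [hk, if_false]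
    rw [abs_of_neg (by linarith [not_le.mp hk])]; ring

/-- the mean of the relative entropies is the information -/
theorem E_cm_log [DecidableEq κ] (X : Om → κ) {Z : Om → ζ} {Z' : Om → ζ'} (hZ : Fac Z' Z) :
    P.E (fun w => ∑ k ∈ Finset.univ.image X, P.cm X Z' k w * Real.log (P.cm X Z' k w / P.cm X Z k w)) =
      P.Hc X Z - P.Hc X Z' := by
  have h1 : P.E (fun w => ∑ k ∈ Finset.univ.image X,
        P.cm X Z' k w * Real.log (P.cm X Z' k w / P.cm X Z k w)) =
      P.E (fun w => ∑ k ∈ Finset.univ.image X,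
        ind (X w = k) * Real.log (P.cm X Z' k w / P.cm X Z k w)) := by
    rw [E_sum, E_sum]
    refine Finset.sum_congr rfl (fun k _ => ?_)
    have hf : Fac Z' (fun w => Real.log (P.cm X Z' k w / P.cm X Z k w)) :=
      (P.cm_fac X Z' k).comp₂ (hZ.trans (P.cm_fac X Z k)) (fun a b => Real.log (a / b))
    exact P.E_ce_mul hf (fun v => ind (X v = k))
  rw [h1]
  have h2 : ∀ w, ∑ k ∈ Finset.univ.image X, ind (X w = k) * Real.log (P.cm X Z' k w / P.cm X Z k w) =
      Real.log (P.cm X Z' (X w) w / P.cm X Z (X w) w) := by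
    intro w
    rw [Finset.sum_eq_single (X w) (fun k _ hk => by rw [ind_not (fun h => hk h.symm), zero_mul])
      (fun h => absurd (Finset.mem_image_of_mem X (Finset.mem_univ w)) h), ind_of rfl, one_mul]
  simp only [h2]
  unfold Hc H
  rw [← E_sub, ← E_sub, ← E_sub]
  refine P.E_congr (fun w hw => ?_)
  have a1 := (P.m_pos (fun v => (X v, Z' v)) hw).ne'
  have a2 := (P.m_pos (fun v => (X v, Z v)) hw).ne'
  have a3 := (P.m_pos Z' hw).ne'
  have a4 := (P.m_pos Z hw).ne'
  rw [cm_self, cm_self, Real.log_div (div_ne_zero a1 a3) (div_ne_zero a2 a4), Real.log_div a1 a3,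
    Real.log_div a2 a4]
  ring

theorem E_tvd_sq (X : Om → κ) {Z : Om → ζ} {Z' : Om → ζ'} (hZ : Fac Z' Z) :
    P.E (fun w => P.tvd X Z Z' w ^ 2) ≤ 2 * (P.Hc X Z - P.Hc X Z') := by
  classical
  rw [← P.E_cm_log X hZ, ← E_smul]
  exact P.E_mono (fun w hw => P.tvd_sq X hZ hw)

/-! ## the ratio -/

theorem ah_nonneg (F : Om → κ) (G : Om → ι) (Z : Om → ζ) (w : Om) : 0 ≤ P.ah F G Z w :=
  div_nonneg (mul_nonneg (P.m_nonneg _ _) (P.m_nonneg _ _)) (mul_nonneg (P.m_nonneg _ _) (P.m_nonneg _ _))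

theorem ah_pos (F : Om → κ) (G : Om → ι) (Z : Om → ζ) {w : Om} (hw : P.p w ≠ 0) : 0 < P.ah F G Z w :=
  div_pos (mul_pos (P.m_pos _ hw) (P.m_pos _ hw)) (mul_pos (P.m_pos _ hw) (P.m_pos _ hw))

theorem ah_fac (F : Om → κ) (G : Om → ι) (Z : Om → ζ) :
    Fac (fun w => (F w, G w, Z w)) (P.ah F G Z) := by
  intro v w h
  simp only [Prod.mk.injEq] at h
  unfold ah
  rw [P.Fac_m (fun v => (F v, Z v)) v w (by show (F v, Z v) = (F w, Z w); rw [h.1, h.2.2]),
    P.Fac_m (fun v => (G v, Z v)) v w (by show (G v, Z v) = (G w, Z w); rw [h.2.1, h.2.2]),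
    P.Fac_m (fun v => (F v, G v, Z v)) v w (by show (F v, G v, Z v) = (F w, G w, Z w); rw [h.1, h.2.1, h.2.2]),
    P.Fac_m Z v w h.2.2]

theorem ah_comm (F : Om → κ) (G : Om → ι) (Z : Om → ζ) (w : Om) : P.ah F G Z w = P.ah G F Z w := by
  unfold ah
  rw [P.m_congr (X := fun v => (F v, G v, Z v)) (Y := fun v => (G v, F v, Z v))
    (fun v w h => by simp only [Prod.mk.injEq] at h ⊢; tauto)
    (fun v w h => by simp only [Prod.mk.injEq] at h ⊢; tauto) w]
  ring

/-- at any time the mean of the ratio is at most one -/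
theorem E_ah_le (F : Om → κ) (G : Om → ι) (Z : Om → ζ) : P.E (P.ah F G Z) ≤ 1 := P.E_prod_le F G Z

/-- a refinement of `F` at fixed `Z`: supermartingale -/
theorem ah_refine {F : Om → κ} {F' : Om → κ'} (G : Om → ι) {Z : Om → ζ}
    (hF : Fac (fun w => (F' w, Z w)) F) {w : Om} (hw : P.p w ≠ 0) :
    P.ce (fun v => (F v, G v, Z v)) (P.ah F' G Z) w ≤ P.ah F G Z w := by
  have pA := P.m_pos (fun v => (F v, G v, Z v)) hw
  have pZ := P.m_pos Z hw
  have pG := P.m_pos (fun v => (G v, Z v)) hw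
  -- the main count
  have key : P.E (fun v => ind ((F v, G v, Z v) = (F w, G w, Z w)) *
      (P.m (fun v => (F' v, Z v)) v / P.m (fun v => (F' v, G v, Z v)) v)) ≤ P.m (fun v => (F v, Z v)) w := by
    have h1 : P.E (fun v => ind ((F v, G v, Z v) = (F w, G w, Z w)) *
        (P.m (fun v => (F' v, Z v)) v / P.m (fun v => (F' v, G v, Z v)) v)) =
        P.E (fun v => P.E (fun u => ind ((F v, G v, Z v) = (F w, G w, Z w)) *
          (ind ((F' u, Z u) = (F' v, Z v)) / P.m (fun v => (F' v, G v, Z v)) v))) := by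
      refine P.E_congr (fun v _ => ?_)
      rw [E_smul, E_div_const]
      rfl
    rw [h1, E_swap]
    refine P.E_mono (fun u _ => ?_)
    show P.E (fun v => ind ((F v, G v, Z v) = (F w, G w, Z w)) *
        (ind ((F' u, Z u) = (F' v, Z v)) / P.m (fun v => (F' v, G v, Z v)) v)) ≤ ind ((F u, Z u) = (F w, Z w))
    by_cases hu : (F u, Z u) = (F w, Z w)
    · rw [ind_of hu]
      refine le_trans (P.E_mono (fun v _ => ?_))
        (P.E_ind_div_m_le (fun v => (F' v, G v, Z v)) (F' u, G w, Z u))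
      by_cases ha : (F v, G v, Z v) = (F w, G w, Z w) ∧ (F' u, Z u) = (F' v, Z v)
      · obtain ⟨ha1, ha2⟩ := ha
        have hb : (F' v, G v, Z v) = (F' u, G w, Z u) := by
          simp only [Prod.mk.injEq] at ha1 ha2 ⊢
          exact ⟨ha2.1.symm, ha1.2.1, ha2.2.symm⟩
        rw [ind_of ha1, ind_of ha2, ind_of hb, one_mul]
      · have h5 : ind ((F v, G v, Z v) = (F w, G w, Z w)) *
            (ind ((F' u, Z u) = (F' v, Z v)) / P.m (fun v => (F' v, G v, Z v)) v) = 0 := by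
          rw [← mul_div_assoc, ← ind_and, ind_not ha, zero_div]
        rw [h5]
        exact div_nonneg (ind_nonneg _) (P.m_nonneg _ v)
    · rw [ind_not hu]
      refine P.E_le_const (fun v _ => ?_)
      have h5 : ind ((F v, G v, Z v) = (F w, G w, Z w)) * ind ((F' u, Z u) = (F' v, Z v)) = 0 := by
        rw [← ind_and, ind_not]
        rintro ⟨ha1, ha2⟩
        apply hu
        have hFu : F u = F v := hF u v ha2
        simp only [Prod.mk.injEq] at ha1 ha2 ⊢
        exact ⟨hFu.trans ha1.1, ha2.2.trans ha1.2.2⟩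
      rw [← mul_div_assoc, h5, zero_div]
  have h2 : P.E (fun v => ind ((F v, G v, Z v) = (F w, G w, Z w)) * P.ah F' G Z v) =
      P.E (fun v => ind ((F v, G v, Z v) = (F w, G w, Z w)) *
        (P.m (fun v => (F' v, Z v)) v / P.m (fun v => (F' v, G v, Z v)) v)) *
        (P.m (fun v => (G v, Z v)) w / P.m Z w) := by
    rw [← E_mul_const]
    refine P.E_congr (fun v _ => ?_)
    by_cases ha : (F v, G v, Z v) = (F w, G w, Z w)
    · rw [ind_of ha]
      simp only [Prod.mk.injEq] at ha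
      unfold ah
      rw [P.Fac_m (fun v => (G v, Z v)) v w (by show (G v, Z v) = (G w, Z w); rw [ha.2.1, ha.2.2]),
        P.Fac_m Z v w ha.2.2, one_mul, one_mul, div_mul_div_comm]
    · rw [ind_not ha]; ring
  unfold ce
  rw [h2]
  unfold ah
  rw [div_le_div_iff₀ pA (mul_pos pA pZ)]
  have h3 : P.E (fun v => ind ((F v, G v, Z v) = (F w, G w, Z w)) *
        (P.m (fun v => (F' v, Z v)) v / P.m (fun v => (F' v, G v, Z v)) v)) *
        (P.m (fun v => (G v, Z v)) w / P.m Z w) * (P.m (fun v => (F v, G v, Z v)) w * P.m Z w) =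
      P.E (fun v => ind ((F v, G v, Z v) = (F w, G w, Z w)) *
        (P.m (fun v => (F' v, Z v)) v / P.m (fun v => (F' v, G v, Z v)) v)) *
        (P.m (fun v => (G v, Z v)) w * P.m (fun v => (F v, G v, Z v)) w) := by
    field_simp
  rw [h3]
  have h4 := mul_le_mul_of_nonneg_right key (mul_pos pG pA).le
  linarith

/-- the same for `G` -/
theorem ah_refine' (F : Om → κ) {G : Om → ι} {G' : Om → ι'} {Z : Om → ζ}
    (hG : Fac (fun w => (G' w, Z w)) G) {w : Om} (hw : P.p w ≠ 0) :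
    P.ce (fun v => (F v, G v, Z v)) (P.ah F G' Z) w ≤ P.ah F G Z w := by
  have h := P.ah_refine F hG hw
  rw [P.ah_comm F G Z w]
  refine le_trans (le_of_eq ?_) h
  have e1 : P.ah F G' Z = P.ah G' F Z := funext (fun v => P.ah_comm F G' Z v)
  rw [e1]
  unfold ce
  rw [P.m_congr (X := fun v => (F v, G v, Z v)) (Y := fun v => (G v, F v, Z v))
    (fun v w h => by simp only [Prod.mk.injEq] at h ⊢; tauto)
    (fun v w h => by simp only [Prod.mk.injEq] at h ⊢; tauto) w]
  congr 1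
  refine P.E_congr (fun v _ => ?_)
  show ind ((F v, G v, Z v) = (F w, G w, Z w)) * _ = ind ((G v, F v, Z v) = (G w, F w, Z w)) * _
  congr 2
  simp only [Prod.mk.injEq, eq_iff_iff]
  tauto

/-! ## public steps -/

theorem ahs_nonneg (F : Om → κ) (G : Om → ι) (Z : Om → ζ) (Z' : Om → ζ') (w : Om) : 0 ≤ P.ahs F G Z Z' w :=
  div_nonneg (P.E_nonneg (fun _ _ => mul_nonneg (ind_nonneg _) (mul_nonneg (abs_nonneg _) (abs_nonneg _))))
    (P.m_nonneg _ _)

/-- mean over one class of the deviation of a conditional law is zero -/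
theorem E_cm_dev (X : Om → κ) {Z : Om → ζ} {Z' : Om → ζ'} (hZ : Fac Z' Z) (k : κ) (w : Om) :
    P.E (fun v => ind (Z v = Z w) * (P.cm X Z' k v - P.cm X Z k v)) = 0 := by
  have hi : Fac Z (fun v => ind (Z v = Z w)) := Fac.ind (fun a b h => by rw [h])
  have h1 := P.E_mul_ce (hZ.trans hi) (fun v => ind (X v = k))
  have h2 := P.E_mul_ce hi (fun v => ind (X v = k))
  have h3 : P.E (fun v => ind (Z v = Z w) * (P.cm X Z' k v - P.cm X Z k v)) =
      P.E (fun v => ind (Z v = Z w) * P.ce Z' (fun v => ind (X v = k)) v) -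
      P.E (fun v => ind (Z v = Z w) * P.ce Z (fun v => ind (X v = k)) v) := by
    rw [← E_sub]
    exact P.E_congr (fun v _ => by unfold cm; ring)
  rw [h3, h1, h2, sub_self]

/-- the class of the true point is counted at most once in every cell of `Z'` -/
theorem E_cell_le (F : Om → κ) (G : Om → ι) {Z : Om → ζ} {Z' : Om → ζ'} (hZ : Fac Z' Z) {h : Om → ℝ}
    (hh : Fac Z' h) (h0 : ∀ v, P.p v ≠ 0 → 0 ≤ h v) (w : Om) :
    P.E (fun v => ind ((F v, G v, Z v) = (F w, G w, Z w)) * (h v / P.m (fun v => (F v, G v, Z' v)) v)) ≤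
      P.E (fun v => ind (Z v = Z w) * (h v / P.m Z' v)) := by
  have h1 : P.E (fun u => P.E (fun v => ind (Z u = Z w) * (h u / P.m Z' u) *
      (ind ((F v, G v, Z' v) = (F w, G w, Z' u)) / P.m (fun v => (F v, G v, Z' v)) v))) ≤
      P.E (fun v => ind (Z v = Z w) * (h v / P.m Z' v)) := by
    refine P.E_mono (fun u hu => ?_)
    rw [E_smul]
    have h2 := P.E_ind_div_m_le (fun v => (F v, G v, Z' v)) (F w, G w, Z' u)
    have h3 : 0 ≤ ind (Z u = Z w) * (h u / P.m Z' u) :=
      mul_nonneg (ind_nonneg _) (div_nonneg (h0 u hu) (P.m_nonneg _ _))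
    have h4 := mul_le_mul_of_nonneg_left h2 h3
    rw [mul_one] at h4
    exact h4
  refine le_trans (le_of_eq ?_) h1
  rw [E_swap]
  refine P.E_congr (fun v hv => ?_)
  have hm := (P.m_pos Z' hv).ne'
  have h5 : ∀ u, ind (Z u = Z w) * (h u / P.m Z' u) *
      (ind ((F v, G v, Z' v) = (F w, G w, Z' u)) / P.m (fun v => (F v, G v, Z' v)) v) =
      ind (Z' u = Z' v) * (ind ((F v, G v, Z v) = (F w, G w, Z w)) *
        (h v / P.m Z' v / P.m (fun v => (F v, G v, Z' v)) v)) := by
    intro u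
    by_cases hz : Z' u = Z' v
    · rw [ind_of hz, hh u v hz, P.Fac_m Z' u v hz, hZ u v hz]
      by_cases ha : (F v, G v, Z v) = (F w, G w, Z w)
      · have hb : (F v, G v, Z' v) = (F w, G w, Z' u) := by
          simp only [Prod.mk.injEq] at ha ⊢
          exact ⟨ha.1, ha.2.1, hz.symm⟩
        have hc : Z v = Z w := by simp only [Prod.mk.injEq] at ha; exact ha.2.2
        rw [ind_of ha, ind_of hb, ind_of hc]; ring
      · rw [ind_not ha]
        by_cases hc : Z v = Z w
        · have hb : ¬ (F v, G v, Z' v) = (F w, G w, Z' u) := by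
            intro hb
            apply ha
            simp only [Prod.mk.injEq] at hb ⊢
            exact ⟨hb.1, hb.2.1, hc⟩
          rw [ind_not hb]; ring
        · rw [ind_not hc]; ring
    · have hb : ¬ (F v, G v, Z' v) = (F w, G w, Z' u) := by
        intro hb
        simp only [Prod.mk.injEq] at hb
        exact hz hb.2.2.symm
      rw [ind_not hz, ind_not hb]; ring
  simp only [h5]
  rw [E_mul_const]
  change _ = P.m Z' v * _
  field_simp

/-- one public step -/
theorem ah_pub (F : Om → κ) (G : Om → ι) {Z : Om → ζ} {Z' : Om → ζ'} (hZ : Fac Z' Z) {w : Om} (hw : P.p w ≠ 0) :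
    P.ce (fun v => (F v, G v, Z v)) (P.ah F G Z') w ≤ P.ah F G Z w + P.ahs F G Z Z' w := by
  have pA := P.m_pos (fun v => (F v, G v, Z v)) hw
  have pZ := P.m_pos Z hw
  set f := F w with hf
  set g := G w with hg
  have h1 : P.E (fun v => ind ((F v, G v, Z v) = (F w, G w, Z w)) * P.ah F G Z' v) =
      P.E (fun v => ind ((F v, G v, Z v) = (F w, G w, Z w)) *
        (P.cm F Z' f v * P.cm G Z' g v * P.m Z' v / P.m (fun v => (F v, G v, Z' v)) v)) := by
    refine P.E_congr (fun v hv => ?_)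
    by_cases ha : (F v, G v, Z v) = (F w, G w, Z w)
    · have ha' := ha
      simp only [Prod.mk.injEq] at ha'
      rw [ind_of ha, one_mul, one_mul]
      have e1 := P.m_eq_cm F Z' ha'.1 hv
      have e2 := P.m_eq_cm G Z' ha'.2.1 hv
      unfold ah
      rw [e1, e2]
      have n1 := (P.m_pos Z' hv).ne'
      have n2 := (P.m_pos (fun v => (F v, G v, Z' v)) hv).ne'
      rw [← hf, ← hg]
      field_simp
    · rw [ind_not ha, zero_mul, zero_mul]
  have h2 : P.E (fun v => ind ((F v, G v, Z v) = (F w, G w, Z w)) *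
        (P.cm F Z' f v * P.cm G Z' g v * P.m Z' v / P.m (fun v => (F v, G v, Z' v)) v)) ≤
      P.E (fun v => ind (Z v = Z w) * (P.cm F Z' f v * P.cm G Z' g v)) := by
    have hh : Fac Z' (fun v => P.cm F Z' f v * P.cm G Z' g v * P.m Z' v) :=
      ((P.cm_fac F Z' f).mul (P.cm_fac G Z' g)).mul (P.Fac_m Z')
    refine (P.E_cell_le F G hZ hh (fun v _ => mul_nonneg (mul_nonneg (P.cm_nonneg _ _ _ _)
      (P.cm_nonneg _ _ _ _)) (P.m_nonneg _ _)) w).trans (le_of_eq ?_)
    refine P.E_congr (fun v hv => ?_)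
    have n1 := (P.m_pos Z' hv).ne'
    show ind (Z v = Z w) * (P.cm F Z' f v * P.cm G Z' g v * P.m Z' v / P.m Z' v) = _
    field_simp
  -- expansion around the law given `Z`
  have h3 : P.E (fun v => ind (Z v = Z w) * (P.cm F Z' f v * P.cm G Z' g v)) =
      P.m Z w * (P.cm F Z f w * P.cm G Z g w) +
      P.E (fun v => ind (Z v = Z w) * ((P.cm F Z' f v - P.cm F Z f v) * (P.cm G Z' g v - P.cm G Z g v))) := by
    have d1 := P.E_cm_dev F hZ f w
    have d2 := P.E_cm_dev G hZ g w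
    have h4 : P.E (fun v => ind (Z v = Z w) * (P.cm F Z' f v * P.cm G Z' g v)) =
        P.E (fun v => ind (Z v = Z w)) * (P.cm F Z f w * P.cm G Z g w) +
        P.E (fun v => ind (Z v = Z w) * (P.cm F Z' f v - P.cm F Z f v)) * P.cm G Z g w +
        P.E (fun v => ind (Z v = Z w) * (P.cm G Z' g v - P.cm G Z g v)) * P.cm F Z f w +
        P.E (fun v => ind (Z v = Z w) * ((P.cm F Z' f v - P.cm F Z f v) * (P.cm G Z' g v - P.cm G Z g v))) := by
      rw [← E_mul_const, ← E_mul_const, ← E_mul_const, ← E_add, ← E_add, ← E_add]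
      refine P.E_congr (fun v _ => ?_)
      by_cases hz : Z v = Z w
      · rw [ind_of hz, P.cm_fac F Z f v w hz, P.cm_fac G Z g v w hz]; ring
      · rw [ind_not hz]; ring
    rw [h4, d1, d2]
    change P.m Z w * _ + _ + _ + _ = _
    ring
  have h5 : P.E (fun v => ind (Z v = Z w) *
        ((P.cm F Z' f v - P.cm F Z f v) * (P.cm G Z' g v - P.cm G Z g v))) ≤
      P.E (fun v => ind (Z v = Z w) *
        (|P.cm F Z' f v - P.cm F Z f v| * |P.cm G Z' g v - P.cm G Z g v|)) := by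
    refine P.E_mono (fun v _ => mul_le_mul_of_nonneg_left ?_ (ind_nonneg _))
    rw [← abs_mul]
    exact le_abs_self _
  have h6 : P.ah F G Z w = P.m Z w * (P.cm F Z f w * P.cm G Z g w) / P.m (fun v => (F v, G v, Z v)) w := by
    rw [hf, hg, cm_self, cm_self]
    unfold ah
    have n1 := pZ.ne'
    have n2 := pA.ne'
    field_simp
  rw [h6]
  unfold ahs ce
  rw [← add_div]
  refine div_le_div_of_nonneg_right ?_ pA.le
  calc _ = _ := h1
    _ ≤ _ := h2
    _ = _ := h3
    _ ≤ _ := by linarith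

/-- the total of the additions is paid by the information gained on `F` and on `G` -/
theorem E_ahs_le (F : Om → κ) (G : Om → ι) {Z : Om → ζ} {Z' : Om → ζ'} (hZ : Fac Z' Z) :
    P.E (P.ahs F G Z Z') ≤ (P.Hc F Z - P.Hc F Z') + (P.Hc G Z - P.Hc G Z') := by
  classical
  have h1 : P.E (P.ahs F G Z Z') ≤ P.E (fun v => P.tvd F Z Z' v * P.tvd G Z Z' v) := by
    have h2 : P.E (P.ahs F G Z Z') = P.E (fun w => P.E (fun v =>
        ind (Z v = Z w) * (|P.cm F Z' (F w) v - P.cm F Z (F w) v| *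
          |P.cm G Z' (G w) v - P.cm G Z (G w) v|) / P.m (fun v => (F v, G v, Z v)) w)) := by
      refine P.E_congr (fun w _ => ?_)
      unfold ahs
      rw [E_div_const]
    rw [h2, E_swap]
    refine P.E_mono (fun v _ => ?_)
    have h3 : P.E (fun w => ind (Z v = Z w) * (|P.cm F Z' (F w) v - P.cm F Z (F w) v| *
          |P.cm G Z' (G w) v - P.cm G Z (G w) v|) / P.m (fun v => (F v, G v, Z v)) w) =
        P.E (fun w => ∑ k ∈ Finset.univ.image F, ∑ l ∈ Finset.univ.image G,
          (|P.cm F Z' k v - P.cm F Z k v| * |P.cm G Z' l v - P.cm G Z l v|) *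
            (ind ((F w, G w, Z w) = (k, l, Z v)) / P.m (fun v => (F v, G v, Z v)) w)) := by
      refine P.E_congr (fun w _ => ?_)
      rw [Finset.sum_eq_single (F w), Finset.sum_eq_single (G w)]
      · have e : ind ((F w, G w, Z w) = (F w, G w, Z v)) = ind (Z v = Z w) := by
          congr 1
          simp only [Prod.mk.injEq, eq_iff_iff, true_and]
          exact eq_comm
        rw [e]; ring
      · intro l _ hl
        rw [ind_not (fun h => hl (by simp only [Prod.mk.injEq] at h; exact h.2.1.symm))]; ring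
      · intro h; exact absurd (Finset.mem_image_of_mem G (Finset.mem_univ w)) h
      · intro k _ hk
        refine Finset.sum_eq_zero (fun l _ => ?_)
        rw [ind_not (fun h => hk (by simp only [Prod.mk.injEq] at h; exact h.1.symm))]; ring
      · intro h; exact absurd (Finset.mem_image_of_mem F (Finset.mem_univ w)) h
    rw [h3, E_sum]
    simp only [E_sum]
    have h4 : ∀ k l, P.E (fun w => (|P.cm F Z' k v - P.cm F Z k v| * |P.cm G Z' l v - P.cm G Z l v|) *
            (ind ((F w, G w, Z w) = (k, l, Z v)) / P.m (fun v => (F v, G v, Z v)) w)) ≤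
        |P.cm F Z' k v - P.cm F Z k v| * |P.cm G Z' l v - P.cm G Z l v| := by
      intro k l
      rw [E_smul]
      have h5 := mul_le_mul_of_nonneg_left (P.E_ind_div_m_le (fun v => (F v, G v, Z v)) (k, l, Z v))
        (mul_nonneg (abs_nonneg (P.cm F Z' k v - P.cm F Z k v)) (abs_nonneg (P.cm G Z' l v - P.cm G Z l v)))
      rw [mul_one] at h5
      exact h5
    refine (Finset.sum_le_sum (fun k _ => Finset.sum_le_sum (fun l _ => h4 k l))).trans (le_of_eq ?_)
    unfold tvd
    rw [Finset.sum_mul_sum]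
  have h6 : P.E (fun v => P.tvd F Z Z' v * P.tvd G Z Z' v) ≤
      P.E (fun v => P.tvd F Z Z' v ^ 2) / 2 + P.E (fun v => P.tvd G Z Z' v ^ 2) / 2 := by
    rw [← E_div_const, ← E_div_const, ← E_add]
    refine P.E_mono (fun v _ => ?_)
    nlinarith [sq_nonneg (P.tvd F Z Z' v - P.tvd G Z Z' v)]
  have h7 := P.E_tvd_sq F hZ
  have h8 := P.E_tvd_sq G hZ
  linarith

/-- one full step: `Z` is refined, then `F` and `G` over the new `Z` -/
theorem ah_step {F : Om → κ} {F' : Om → κ'} {G : Om → ι} {G' : Om → ι'} {Z : Om → ζ} {Z' : Om → ζ'}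
    (hZ : Fac Z' Z) (hF : Fac (fun w => (F' w, Z' w)) F) (hG : Fac (fun w => (G' w, Z' w)) G) {w : Om}
    (hw : P.p w ≠ 0) :
    P.ce (fun v => (F v, G v, Z v)) (P.ah F' G' Z') w ≤ P.ah F G Z w + P.ahs F G Z Z' w := by
  have f1 : Fac (fun v => (F v, G v, Z' v)) (fun v => (F v, G v, Z v)) := by
    intro a b h
    simp only [Prod.mk.injEq] at h ⊢
    exact ⟨h.1, h.2.1, hZ a b h.2.2⟩
  have f2 : Fac (fun v => (F' v, G v, Z' v)) (fun v => (F v, G v, Z' v)) := by
    intro a b h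
    simp only [Prod.mk.injEq] at h ⊢
    exact ⟨hF a b (by show (F' a, Z' a) = (F' b, Z' b); rw [h.1, h.2.2]), h.2.1, h.2.2⟩
  have s3 : ∀ v, P.p v ≠ 0 → P.ce (fun v => (F' v, G v, Z' v)) (P.ah F' G' Z') v ≤ P.ah F' G Z' v :=
    fun v hv => P.ah_refine' F' hG hv
  have s2 : ∀ v, P.p v ≠ 0 → P.ce (fun v => (F v, G v, Z' v)) (P.ah F' G' Z') v ≤ P.ah F G Z' v := by
    intro v hv
    rw [← P.ce_tower f2]
    exact (P.ce_mono s3 v).trans (P.ah_refine G hF hv)
  rw [← P.ce_tower f1]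
  exact (P.ce_mono s2 w).trans (P.ah_pub F G hZ hw)

/-! ## the maximal inequality -/

/-- telescoping of the information on growing labels -/
theorem Hc_telescope {κ ζ : ℕ → Type*} {F : ∀ t, Om → κ t} {Z : ∀ t, Om → ζ t}
    (hF : ∀ t, Fac (fun w => (F (t + 1) w, Z (t + 1) w)) (F t)) (n : ℕ) :
    ∑ t ∈ range n, (P.Hc (F t) (Z t) - P.Hc (F t) (Z (t + 1))) + P.Hc (F n) (Z n) =
      P.Hc (F 0) (Z 0) + ∑ t ∈ range n, P.Hc (F (t + 1)) (fun w => (F t w, Z (t + 1) w)) := by
  induction n with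
  | zero => simp
  | succ n ih =>
    rw [Finset.sum_range_succ, Finset.sum_range_succ]
    have h1 := P.Hc_chain (F (n + 1)) (F n) (Z (n + 1))
    have h2 : P.Hc (fun w => (F (n + 1) w, F n w)) (Z (n + 1)) = P.Hc (F (n + 1)) (Z (n + 1)) := by
      refine P.Hc_congr ?_ (Fac.refl _) ?_ (Fac.refl _)
      · intro v w h; simp only [Prod.mk.injEq] at h; exact h.1.1
      · intro v w h
        have h' := hF n v w h
        simp only [Prod.mk.injEq] at h ⊢
        exact ⟨h.1, h'⟩
    rw [h2] at h1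
    linarith

/-- ANTI-HOT NEVER HAPPENS: for two groups of moving labels `F_t`, `G_t` over a growing public field `Z_t`, the ratio
`P(F|Z) P(G|Z) / P(F,G|Z)` at the true point reaches the level `c` at some time with probability at most
`(1 + H(F) + H(G)) / c`, where `H(F) = Hc(F_0|Z_0) + sum Hc(F_{t+1}|F_t,Z_{t+1})` is the entropy ever created. -/
theorem anti_hot {κ ι ζ : ℕ → Type*} {F : ∀ t, Om → κ t} {G : ∀ t, Om → ι t} {Z : ∀ t, Om → ζ t}
    (hZ : ∀ t, Fac (Z (t + 1)) (Z t))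
    (hF : ∀ t, Fac (fun w => (F (t + 1) w, Z (t + 1) w)) (F t))
    (hG : ∀ t, Fac (fun w => (G (t + 1) w, Z (t + 1) w)) (G t)) (n : ℕ) {c : ℝ} (hc : 0 ≤ c) :
    c * P.Pr (fun w => ∃ t ≤ n, c ≤ P.ah (F t) (G t) (Z t) w) ≤
      1 + (P.Hc (F 0) (Z 0) + ∑ t ∈ range n, P.Hc (F (t + 1)) (fun w => (F t w, Z (t + 1) w))) +
        (P.Hc (G 0) (Z 0) + ∑ t ∈ range n, P.Hc (G (t + 1)) (fun w => (G t w, Z (t + 1) w))) := by
  have hX : Filt (fun t => fun w => (F t w, G t w, Z t w)) := by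
    intro t v w h
    have h' : (F (t + 1) v, G (t + 1) v, Z (t + 1) v) = (F (t + 1) w, G (t + 1) w, Z (t + 1) w) := h
    simp only [Prod.mk.injEq] at h'
    have e1 : F t v = F t w := hF t v w (by
      show (F (t + 1) v, Z (t + 1) v) = (F (t + 1) w, Z (t + 1) w); rw [h'.1, h'.2.2])
    have e2 : G t v = G t w := hG t v w (by
      show (G (t + 1) v, Z (t + 1) v) = (G (t + 1) w, Z (t + 1) w); rw [h'.2.1, h'.2.2])
    show (F t v, G t v, Z t v) = (F t w, G t w, Z t w)
    rw [e1, e2, hZ t v w h'.2.2]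
  have h1 := P.doob_super hX (Z := fun t => P.ah (F t) (G t) (Z t))
    (s := fun t => P.ahs (F t) (G t) (Z t) (Z (t + 1)))
    (fun t => P.ah_fac _ _ _) (fun t w _ => P.ah_nonneg _ _ _ w) (fun t w _ => P.ahs_nonneg _ _ _ _ w)
    (fun t w hw => P.ah_step (hZ t) (hF t) (hG t) hw) n hc
  have h2 := P.E_ah_le (F 0) (G 0) (Z 0)
  have h3 : ∑ t ∈ range n, P.E (P.ahs (F t) (G t) (Z t) (Z (t + 1))) ≤
      ∑ t ∈ range n, ((P.Hc (F t) (Z t) - P.Hc (F t) (Z (t + 1))) +
        (P.Hc (G t) (Z t) - P.Hc (G t) (Z (t + 1)))) :=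
    Finset.sum_le_sum (fun t _ => P.E_ahs_le (F t) (G t) (hZ t))
  rw [Finset.sum_add_distrib] at h3
  have h4 := P.Hc_telescope (Z := Z) hF n
  have h5 := P.Hc_telescope (Z := Z) hG n
  have h6 := P.Hc_nonneg (F n) (Z n)
  have h7 := P.Hc_nonneg (G n) (Z n)
  linarith

end FP

end Pool.Agent.M3
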